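import Pool.Agent.helper41.HFE.Spec

set_option autoImplicit false

open Polynomial Module Pool.Agent.HFN

namespace Pool.Agent.HFE

noncomputable section

theorem EXK_num (i j r : ℕ) (h : 4 * r < (i + 2) * (j + 2))
    (h2 : ((i + 1) / 2 + 1) * ((j + 1) / 2 + 1) + (i - (i + 1) / 2 + 1) * (j - (j + 1) / 2 + 1) ≤ 2 * r) : False := by
  obtain ⟨k, hk⟩ := Nat.even_or_odd' i
  obtain ⟨l, hl⟩ := Nat.even_or_odd' j
  rcases hk with hk | hk <;> rcases hl with hl | hl
  · have e1 : (i + 1) / 2 = k := by omega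
    have e2 : (j + 1) / 2 = l := by omega
    have e3 : i - k = k := by omega
    have e4 : j - l = l := by omega
    rw [e1, e2, e3, e4] at h2
    rw [hk, hl] at h
    nlinarith
  · have e1 : (i + 1) / 2 = k := by omega
    have e2 : (j + 1) / 2 = l + 1 := by omega
    have e3 : i - k = k := by omega
    have e4 : j - (l + 1) = l := by omega
    rw [e1, e2, e3, e4] at h2
    rw [hk, hl] at h
    nlinarith
  · have e1 : (i + 1) / 2 = k + 1 := by omega
    have e2 : (j + 1) / 2 = l := by omega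
    have e3 : i - (k + 1) = k := by omega
    have e4 : j - l = l := by omega
    rw [e1, e2, e3, e4] at h2
    rw [hk, hl] at h
    nlinarith
  · have e1 : (i + 1) / 2 = k + 1 := by omega
    have e2 : (j + 1) / 2 = l + 1 := by omega
    have e3 : i - (k + 1) = k := by omega
    have e4 : j - (l + 1) = l := by omega
    rw [e1, e2, e3, e4] at h2
    rw [hk, hl] at h
    nlinarith

theorem EXK_hd (J : Ideal AA) (p q s t : ℕ) (hs : s ≤ p) (ht : t ≤ q) (h : ∀ f : AA, f ∈ J → f ∈ V p q → f = 0) : hd J s t = 0 := by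
  unfold hd
  have e : (V s t ⊓ J.restrictScalars ℂ : Submodule ℂ AA) = ⊥ := by
    rw [Submodule.eq_bot_iff]
    intro f hf
    exact h f hf.2 (V_mono hs ht hf.1)
  rw [e]
  exact finrank_bot ℂ AA

theorem EXK (hSYM : SYM_stmt) : EXK_stmt := by
  intro φ i j r hF hc hV hr
  have hex : ∃ f : AA, f ≠ 0 ∧ f ∈ An φ ∧ f ∈ V ((i + 1) / 2) ((j + 1) / 2) := by
    by_contra hcon
    push Not at hcon
    have h0 : ∀ f : AA, f ∈ An φ → f ∈ V ((i + 1) / 2) ((j + 1) / 2) → f = 0 := by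
      intro f hf hfV
      by_contra hne
      exact hcon f hne hf hfV
    have h1 := hSYM φ i j hF hV ((i + 1) / 2) ((j + 1) / 2) (by omega) (by omega)
    rw [EXK_hd (An φ) _ _ _ _ le_rfl le_rfl h0, EXK_hd (An φ) _ _ _ _ (by omega) (by omega) h0] at h1
    exact EXK_num i j r hr (by omega)
  classical
  have hex2 : ∃ n : ℕ, ∃ f : AA, f ≠ 0 ∧ f ∈ An φ ∧ f ∈ V ((i + 1) / 2) ((j + 1) / 2) ∧ dX f + dY f = n := by
    obtain ⟨f, h1, h2, h3⟩ := hex
    exact ⟨_, f, h1, h2, h3, rfl⟩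
  obtain ⟨f, h1, h2, h3, h4⟩ := Nat.find_spec hex2
  refine ⟨f, h1, h2, h3, ?_⟩
  intro g hg1 hg2 hg3
  rw [h4]
  exact Nat.find_min' hex2 ⟨g, hg1, hg2, hg3, rfl⟩

end

end Pool.Agent.HFE
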